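import Pool.Agent.Run7.h809.GEN.GZ2

/-!
# The zero estimate over the algebraic closure of `ℚ(u)`
-/

set_option autoImplicit false
set_option linter.unusedSectionVars false

open Polynomial Differential
open scoped Differential

namespace H809.GEN

open H809.OD H809.OD.Abs H809.OD.Inst H635.GEN

/-- an element of `Ka` is a root of a nonzero polynomial with coefficients in `ℚ[X]` -/
lemma exists_poly (x : Ka) : ∃ P : ℚ[X][X], P ≠ 0 ∧
    eval₂ (io.comp (Polynomial.aeval u : Polynomial ℚ →ₐ[ℚ] PowerSeries ℚ).toRingHom) (jK x) P =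
      0 := by
  obtain ⟨p, hp, hpx⟩ := alg_jK x
  obtain ⟨Q, c, hQ, hc⟩ := exists_denom theta_holds (n := p.natDegree + 1) p.coeff
  set P : ℚ[X][X] := ∑ i ∈ Finset.range (p.natDegree + 1), C (c i) * X ^ i with hP
  have hPc : ∀ i, P.coeff i = if i < p.natDegree + 1 then c i else 0 := by
    intro i
    rw [hP, finsetSum_coeff]
    simp only [coeff_C_mul, coeff_X_pow]
    split_ifs with h
    · rw [Finset.sum_eq_single i]
      · simp
      · intro b _ hb
        rw [if_neg (Ne.symm hb), mul_zero]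
      · intro h'; exact absurd (Finset.mem_range.2 h) h'
    · refine Finset.sum_eq_zero fun b hb => ?_
      rw [if_neg (by have := Finset.mem_range.1 hb; omega), mul_zero]
  have hmap : P.map al = C (al Q) * p := by
    ext i
    rw [coeff_map, coeff_C_mul, hPc]
    split_ifs with h
    · exact (hc i h).symm
    · rw [map_zero, coeff_eq_zero_of_natDegree_lt (by omega), mul_zero]
  refine ⟨P, ?_, ?_⟩
  · intro h0
    rw [h0, Polynomial.map_zero] at hmap
    rcases mul_eq_zero.1 hmap.symm with h1 | h1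
    · rw [C_eq_zero] at h1
      exact hQ (al_inj (h1.trans (map_zero _).symm))
    · exact hp h1
  · have h1 : (algebraMap Kf Lf).comp al =
        io.comp (Polynomial.aeval u : Polynomial ℚ →ₐ[ℚ] PowerSeries ℚ).toRingHom :=
      RingHom.ext fun P => am_al P
    rw [← h1, ← eval₂_map, hmap, eval₂_mul, ← aeval_def (R := Kf) (jK x) p, hpx, mul_zero]

lemma hratA (N : ℕ) (G : PowerSeries ℚ) (hG : AlgU G) (hn : NoSol N G) (c : ℚ) (g : Ka[X])
    (hc : c ≠ 0) (hg : g.natDegree ≤ N) : nab sysA N g ≠ C ((c : Ka) * gA G hG) := by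
  intro heq
  refine hn c (fun i => jK (g.coeff i)) hc (fun i => exists_poly (g.coeff i)) ?_
  have h1 : ∑ i ∈ Finset.range (N + 1), jK (g.coeff i) * io zt ^ i = aeval (io zt) g := by
    rw [aeval_eq_sum_range' (n := N + 1) (by omega)]
    refine Finset.sum_congr rfl fun i _ => ?_
    rw [Algebra.smul_def, jK_eq]
  rw [h1]
  have h2 := aeval_nab sysA N g
  have hw : (sysA).w = io w := rfl
  have hz : (sysA).ζ = io zt := rfl
  rw [heq, hw, hz, aeval_C] at h2
  rw [← h2, jK_eq, map_mul, map_ratCast]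
  have h3 : jK (gA G hG) = io G := rfl
  rw [h3]
  ring

/-- the primitive -/
lemma deriv_FA (N : ℕ) (G F : PowerSeries ℚ) (hG : AlgU G) (hF : th F = w ^ (N + 2) * G) :
    (io F)′ = algebraMap Ka Lf (gA G hG) * io w ^ N := by
  have h3 : algebraMap Ka Lf (gA G hG) = io G := rfl
  rw [deriv_io theta_holds F (w ^ N * G) (by rw [hF]; ring), map_mul, map_pow, h3, mul_comm]

/-- a minimal relation for `G` -/
lemma exists_min (G : PowerSeries ℚ) (hG : AlgU G) : ∃ Φ : ℚ[X][X], ev2 G Φ = 0 ∧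
    ev2 G (derivative Φ) ≠ 0 := by
  classical
  have hex : ∃ n, ∃ Φ : ℚ[X][X], Φ ≠ 0 ∧ ev2 G Φ = 0 ∧ Φ.natDegree = n := by
    obtain ⟨Φ, h1, h2⟩ := hG
    exact ⟨_, Φ, h1, h2, rfl⟩
  obtain ⟨Φ, h1, h2, h3⟩ := Nat.find_spec hex
  have hmin : ∀ Ψ : ℚ[X][X], Ψ ≠ 0 → ev2 G Ψ = 0 → Φ.natDegree ≤ Ψ.natDegree := by
    intro Ψ hΨ1 hΨ2
    rw [h3]
    exact Nat.find_min' hex ⟨Ψ, hΨ1, hΨ2, rfl⟩
  refine ⟨Φ, h2, fun h4 => ?_⟩
  have hpos : 0 < Φ.natDegree := by
    by_contra h5
    have h6 : Φ.natDegree = 0 := by omega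
    rw [natDegree_eq_zero] at h6
    obtain ⟨c, rfl⟩ := h6
    have h7 : ev2 G (C c) = aeval u c := by
      unfold ev2
      rw [coe_eval₂RingHom, eval₂_C]
      rfl
    rw [h7] at h2
    exact Run7.h709.OD.ph_ne theta_holds c (fun h8 => h1 (by rw [h8, map_zero])) h2
  have hne : derivative Φ ≠ 0 := by
    intro h5
    have := derivative_eq_zero.1 h5
    omega
  have h5 := hmin _ hne h4
  have h6 := natDegree_derivative_lt (p := Φ) (by omega)
  omega

/-- a bound for the bidegree -/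
lemma exists_BD (P : ℚ[X][X]) : ∃ s t, BD s t P := by
  refine ⟨(Finset.range (P.natDegree + 1)).sup fun i => (P.coeff i).natDegree, P.natDegree, le_rfl,
    fun i => ?_⟩
  by_cases hi : i < P.natDegree + 1
  · exact Finset.le_sup (f := fun i => (P.coeff i).natDegree) (Finset.mem_range.2 hi)
  · rw [coeff_eq_zero_of_natDegree_lt (by omega)]
    simp

/-- the main computation -/
theorem zero_ofA (N K κ D : ℕ) (G F : PowerSeries ℚ) (hG : AlgU G) (hn : NoSol N G)
    (hκ : N * K ≤ κ) (hF : th F = w ^ (N + 2) * G) (Φ : ℚ[X][X]) (hΦ : ev2 G Φ = 0)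
    (hΦ' : ev2 G (derivative Φ) ≠ 0) (e1 e2 : ℕ) (hBD : BD e1 e2 Φ)
    (c : ℕ → ℕ → ℚ[X]) (hcD : ∀ k b, (c k b).natDegree ≤ D)
    (k0 : ℕ) (hk0 : k0 ≤ K) (hc0 : Supp N κ k0 c) (hne : ∃ b, c k0 b ≠ 0) (B : ℕ) (f : PowerSeries ℚ)
    (hf : ∑ k ∈ Finset.range (K + 1), ∑ b ∈ Finset.range (κ + 1),
      aeval u (c k b) * zt ^ b * (F * wi ^ N) ^ k = PowerSeries.X ^ (B + 1) * f) :
    ∃ (Q : ℚ[X][X]) (g : PowerSeries ℚ), BD ((K + 1) * (κ + 1) * (D + (K + 1) * (κ + 1) * (e1 + 4)))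
      ((K + 1) * (κ + 1) * ((K + 1) * (κ + 1) * (e2 + 1))) Q ∧ ev2 G Q ≠ 0 ∧
      ev2 G Q = PowerSeries.X ^ (B + 1) * g := by
  classical
  set S := sysA with hS
  have hSw : S.w = io w := rfl
  have hSz : S.ζ = io zt := rfl
  have hε : ea G hG (derivative Φ) ≠ 0 := by
    intro h0
    apply hΦ'
    apply io_inj
    rw [← jK_ea G hG, h0, map_zero, map_zero]
  -- arrays
  let Pa : ℕ → ℕ → ℕ → ℚ[X][X] := fun a => (stE N κ Φ)^[a] (fun k b => C (c k b))
  have hPa0 : Pa 0 = fun k b => C (c k b) := rfl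
  have hPa1 : ∀ a, Pa (a + 1) = stE N κ Φ (Pa a) := fun a => Function.iterate_succ_apply' _ _ _
  have hPaS : ∀ a, SuppA N κ k0 (Pa a) := by
    intro a
    induction a with
    | zero =>
      intro k b hkb
      exact hc0 k b fun h0 => hkb (by rw [hPa0]; simp only; rw [h0, map_zero])
    | succ a ih => rw [hPa1]; exact supp_stE ih
  have hPaD : ∀ a k b, BD (D + a * (e1 + 4)) (a * (e2 + 1)) (Pa a k b) := by
    intro a
    induction a with
    | zero =>
      intro k b
      rw [hPa0]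
      exact (BD.C (hcD k b)).mono (by omega) (by omega)
    | succ a ih =>
      intro k b
      rw [hPa1]
      refine (hBD.stE ih k b).mono (le_of_eq ?_) (le_of_eq ?_) <;> ring
  let va : ℕ → ℕ → Ka[X] := fun a => vecA G hG κ (Pa a)
  have hva : ∀ a, va (a + 1) = ea G hG (derivative Φ) • nabs S N κ (gA G hG) (va a) := by
    intro a
    show vecA G hG κ (Pa (a + 1)) = _
    rw [hPa1]
    exact vec_stE G hG Φ hΦ (hPaS a)
  have hvz : ∀ a, ∀ k > k0, va a k = 0 := by
    intro a k hk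
    ext b
    rw [coeff_vecA G hG (hPaS a), (hPaS a).zero (Or.inl hk), map_zero, coeff_zero]
  have hvdeg : ∀ a k, (va a k).natDegree ≤ κ - N * k := by
    intro a k
    rw [natDegree_le_iff_coeff_eq_zero]
    intro b hb
    rw [coeff_vecA G hG (hPaS a), (hPaS a).zero (Or.inr (by omega)), map_zero]
  have hv0 : va 0 k0 ≠ 0 := by
    obtain ⟨b, hb⟩ := hne
    intro h0
    have h1 := congrArg (fun P : Ka[X] => P.coeff b) h0
    beta_reduce at h1
    rw [coeff_vecA G hG (hPaS 0), coeff_zero] at h1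
    have h2 : Pa 0 k0 b = C (c k0 b) := rfl
    rw [h2, ea_C] at h1
    have h3 : al (c k0 b) = 0 := (algebraMap Kf Ka).injective (h1.trans (map_zero _).symm)
    exact hb (al_inj (h3.trans (map_zero _).symm))
  -- indices
  let ι0 : Finset (ℕ × ℕ) := ((Finset.range (k0 + 1)) ×ˢ (Finset.range (κ + 1))).filter
    (fun x => x.2 + N * x.1 ≤ κ)
  have hmemι : ∀ x : ℕ × ℕ, x ∈ ι0 ↔ x.1 ≤ k0 ∧ x.2 + N * x.1 ≤ κ := by
    intro x
    simp only [ι0, Finset.mem_filter, Finset.mem_product, Finset.mem_range]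
    constructor
    · rintro ⟨⟨h1, _⟩, h2⟩; exact ⟨by omega, h2⟩
    · rintro ⟨h1, h2⟩; exact ⟨⟨by omega, by omega⟩, h2⟩
  set m := ι0.card with hm
  have hm1 : m ≤ (K + 1) * (κ + 1) := by
    refine (Finset.card_filter_le _ _).trans ?_
    rw [Finset.card_product, Finset.card_range, Finset.card_range]
    exact Nat.mul_le_mul_right _ (by omega)
  let eq : ι0 ≃ Fin m := ι0.equivFin
  let e : Fin m → ℕ × ℕ := fun i => (eq.symm i : ℕ × ℕ)
  have he : Function.Injective e := fun i j hij => eq.symm.injective (Subtype.ext hij)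
  have heι : ∀ i, e i ∈ ι0 := fun i => (eq.symm i).2
  have he1 : ∀ i, (e i).1 ≤ k0 := fun i => ((hmemι _).1 (heι i)).1
  have he2 : ∀ i, (e i).2 + N * (e i).1 ≤ κ := fun i => ((hmemι _).1 (heι i)).2
  let i0 : Fin m := eq ⟨(0, 0), (hmemι _).2 ⟨Nat.zero_le _, by simp⟩⟩
  have hei0 : e i0 = (0, 0) := by simp [e, i0]
  let M : Matrix (Fin m) (Fin m) ℚ[X][X] := Matrix.of fun a i => Pa a (e i).1 (e i).2
  have hMD : ∀ a i, BD (D + (K + 1) * (κ + 1) * (e1 + 4)) ((K + 1) * (κ + 1) * (e2 + 1)) (M a i) := by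
    intro a i
    have h1 : (a : ℕ) ≤ (K + 1) * (κ + 1) := by have := a.2; omega
    exact (hPaD a _ _).mono (Nat.add_le_add_left (Nat.mul_le_mul_right _ h1) _)
      (Nat.mul_le_mul_right _ h1)
  have hdet : ev2 G M.det ≠ 0 := by
    intro h0
    have h1 : (M.map (ea G hG)).det = 0 := by
      have h2 := RingHom.map_det (ea G hG) M
      have h3 : ea G hG M.det = 0 := by
        apply jK_inj
        rw [jK_ea, h0, map_zero, map_zero]
      rw [h3] at h2
      exact h2.symm
    obtain ⟨l, hl0, hl⟩ := Matrix.exists_vecMul_eq_zero_iff.2 h1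
    apply hl0
    let l' : ℕ → Ka := fun a => if h : a < m then l ⟨a, h⟩ else 0
    have h3 : ∑ a ∈ Finset.range m, l' a • va a = 0 := by
      funext k
      ext b
      rw [Finset.sum_range, Finset.sum_apply, Pi.zero_apply, coeff_zero, finsetSum_coeff]
      by_cases hkb : (k, b) ∈ ι0
      · have h4 := congrFun hl (eq ⟨(k, b), hkb⟩)
        simp only [Matrix.vecMul, dotProduct, Matrix.map_apply, Pi.zero_apply] at h4
        rw [← h4]
        refine Finset.sum_congr rfl fun a _ => ?_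
        rw [Pi.smul_apply, coeff_smul, coeff_vecA G hG (hPaS a), smul_eq_mul]
        simp [l', M, e]
      · refine Finset.sum_eq_zero fun a _ => ?_
        rw [Pi.smul_apply, coeff_smul, coeff_vecA G hG (hPaS a), (hPaS a).zero, map_zero, smul_zero]
        rw [hmemι] at hkb
        simp only at hkb
        omega
    have h5 := krylov_eps S N κ K hκ (gA G hG) (io F) (deriv_FA N G F hG hF)
      (fun c g hc hg => hratA N G hG hn c g hc hg) (ea G hG (derivative Φ)) hε va hva hvdeg k0 hk0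
      hv0 hvz m e he he1 he2 l' h3
    funext a
    have h6 := h5 a a.2
    simpa [l'] using h6
  -- evaluation
  let x : ℕ → Lf := fun a => PsiA S N κ K (io F) (va a)
  let y : ℕ × ℕ → Lf := fun z => S.w ^ (κ - N * z.1) * io F ^ z.1 * S.ζ ^ z.2
  have hev : ∀ P, ((algebraMap Ka Lf).comp (ea G hG)) P = io (ev2 G P) := fun P => jK_ea G hG P
  have hxa : ∀ a, x a = ∑ i : Fin m,
      ((algebraMap Ka Lf).comp (ea G hG)) (Pa a (e i).1 (e i).2) * y (e i) := by
    intro a
    have h1 : ∑ i : Fin m, ((algebraMap Ka Lf).comp (ea G hG)) (Pa a (e i).1 (e i).2) * y (e i) =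
        ∑ z ∈ ι0, ((algebraMap Ka Lf).comp (ea G hG)) (Pa a z.1 z.2) * y z := by
      rw [← Finset.sum_coe_sort ι0]
      exact Equiv.sum_comp eq.symm
        (fun z : ι0 => ((algebraMap Ka Lf).comp (ea G hG)) (Pa a (z : ℕ × ℕ).1 (z : ℕ × ℕ).2) * y z)
    rw [h1]
    have h2 : ∑ z ∈ ι0, ((algebraMap Ka Lf).comp (ea G hG)) (Pa a z.1 z.2) * y z =
        ∑ z ∈ (Finset.range (K + 1)) ×ˢ (Finset.range (κ + 1)),
          ((algebraMap Ka Lf).comp (ea G hG)) (Pa a z.1 z.2) * y z := by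
      refine Finset.sum_subset (fun z hz => ?_) fun z _ hz => ?_
      · have := (hmemι z).1 hz
        rw [Finset.mem_product, Finset.mem_range, Finset.mem_range]
        omega
      · rw [hmemι] at hz
        rw [(hPaS a).zero (by omega), map_zero, zero_mul]
    rw [h2, Finset.sum_product]
    show PsiA S N κ K (io F) (va a) = _
    unfold PsiA
    refine Finset.sum_congr rfl fun k _ => ?_
    have h3 : aeval S.ζ (va a k) = ∑ b ∈ Finset.range (κ + 1),
        ((algebraMap Ka Lf).comp (ea G hG)) (Pa a k b) * S.ζ ^ b := by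
      show aeval S.ζ (vecA G hG κ (Pa a) k) = _
      unfold vecA
      rw [map_sum]
      refine Finset.sum_congr rfl fun b _ => ?_
      rw [map_mul, map_pow, aeval_X, aeval_C]
      rfl
    rw [h3, Finset.mul_sum]
    refine Finset.sum_congr rfl fun b _ => ?_
    show S.w ^ (κ - N * k) * io F ^ k * (_ * S.ζ ^ b) = _ * (S.w ^ (κ - N * k) * io F ^ k * S.ζ ^ b)
    rw [← mul_assoc, mul_comm (S.w ^ (κ - N * k) * io F ^ k), mul_assoc]
  have hJ0 : J (B + 1) (x 0) := by
    refine ⟨w ^ κ * f, ?_⟩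
    have h1 : x 0 = io (w ^ κ * ∑ k ∈ Finset.range (K + 1), ∑ b ∈ Finset.range (κ + 1),
        aeval u (c k b) * zt ^ b * (F * wi ^ N) ^ k) := by
      show PsiA S N κ K (io F) (vecA G hG κ (Pa 0)) = _
      unfold PsiA
      rw [Finset.mul_sum, map_sum]
      refine Finset.sum_congr rfl fun k hk => ?_
      have h2 : aeval S.ζ (vecA G hG κ (Pa 0) k) =
          io (∑ b ∈ Finset.range (κ + 1), aeval u (c k b) * zt ^ b) := by
        unfold vecA
        rw [map_sum, map_sum]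
        refine Finset.sum_congr rfl fun b _ => ?_
        rw [map_mul, map_pow, aeval_X, aeval_C, map_mul, map_pow, hSz]
        congr 1
        show jK (ea G hG (C (c k b))) = _
        rw [jK_ea]
        congr 1
        unfold ev2
        rw [coe_eval₂RingHom, eval₂_C]
        rfl
      rw [h2, hSw, ← map_pow, ← map_pow, ← map_mul, ← map_mul]
      congr 1
      have hk' := Finset.mem_range.1 hk
      have h4 : N * k ≤ κ := le_trans (Nat.mul_le_mul_left N (by omega)) hκ
      have h5 : w ^ (κ - N * k) * F ^ k = w ^ κ * (F * wi ^ N) ^ k := by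
        have h6 : w ^ κ = w ^ (κ - N * k) * w ^ (N * k) := by
          rw [← pow_add]; congr 1; omega
        rw [h6, mul_pow, ← pow_mul]
        have h7 : w ^ (N * k) * wi ^ (N * k) = 1 := by rw [← mul_pow, w_wi, one_pow]
        calc w ^ (κ - N * k) * F ^ k = w ^ (κ - N * k) * F ^ k * (w ^ (N * k) * wi ^ (N * k)) := by
              rw [h7, mul_one]
          _ = _ := by ring
      rw [h5, Finset.mul_sum, Finset.mul_sum]
      refine Finset.sum_congr rfl fun b _ => ?_
      ring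
    rw [h1, hf]
    congr 1
    ring
  have hJ : ∀ a, J (B + 1) (x a) := by
    intro a
    induction a with
    | zero => exact hJ0
    | succ a ih =>
      have h1 : x (a + 1) = io (ev2 G (derivative Φ)) * (x a)′ := by
        show PsiA S N κ K (io F) (va (a + 1)) = io (ev2 G (derivative Φ)) * ((PsiA S N κ K (io F) (va a))′)
        rw [hva, PsiA_deriv S hκ (gA G hG) (io F) (deriv_FA N G F hG hF) (va a)
          (fun k hk => hvz a k (by omega))]
        unfold PsiA
        rw [Finset.mul_sum]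
        refine Finset.sum_congr rfl fun k _ => ?_
        rw [Pi.smul_apply, map_smul, Algebra.smul_def]
        have h2 : algebraMap Ka Lf (ea G hG (derivative Φ)) = io (ev2 G (derivative Φ)) := hev _
        rw [h2, ← mul_assoc, ← mul_assoc, mul_comm (io (ev2 G (derivative Φ)))]
      rw [h1]
      exact J_mul (J_deriv ih) _
  have hcr := cramer ((algebraMap Ka Lf).comp (ea G hG)) M (fun a => x a) (fun i => y (e i))
    (fun a => hxa a) i0
  have hJd : J (B + 1) (((algebraMap Ka Lf).comp (ea G hG)) M.det * y (e i0)) := by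
    rw [← hcr]
    refine J_sum _ _ fun a _ => ?_
    rw [hev]
    exact J_mul (hJ a) _
  obtain ⟨g, hg⟩ := hJd
  have h2 : y (e i0) = io (w ^ κ) := by
    rw [hei0]
    show S.w ^ (κ - N * 0) * io F ^ 0 * S.ζ ^ 0 = _
    rw [mul_zero, Nat.sub_zero, pow_zero, pow_zero, mul_one, mul_one, hSw, map_pow]
  rw [hev, h2, ← map_mul] at hg
  have h3 := io_inj hg
  have h4 : ev2 G M.det = PowerSeries.X ^ (B + 1) * (g * wi ^ κ) := by
    have h5 : w ^ κ * wi ^ κ = 1 := by rw [← mul_pow, w_wi, one_pow]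
    calc ev2 G M.det = ev2 G M.det * (w ^ κ * wi ^ κ) := by rw [h5, mul_one]
      _ = (ev2 G M.det * w ^ κ) * wi ^ κ := by ring
      _ = _ := by rw [h3]; ring
  refine ⟨M.det, _, (BD.det M hMD).mono (Nat.mul_le_mul_right _ hm1) (Nat.mul_le_mul_right _ hm1),
    hdet, h4⟩

/-- **The zero estimate.** -/
theorem gzero (ho : S_Ord) : S_GZero := by
  classical
  intro N G F _ hG hF hn
  obtain ⟨d, hd, e, hord⟩ := ho G hG
  obtain ⟨Φ, hΦ, hΦ'⟩ := exists_min G hG
  obtain ⟨e1, e2, hBD⟩ := exists_BD Φ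
  refine ⟨d, hd, fun K κ hκ => ⟨d * ((K + 1) * (κ + 1) * ((K + 1) * (κ + 1) * (e1 + 4))) +
    e * ((K + 1) * (κ + 1) * ((K + 1) * (κ + 1) * (e2 + 1))), fun D c hcD hcS hcne => ?_⟩⟩
  by_contra hcon
  push Not at hcon
  set B := d * ((K + 1) * (κ + 1)) * D + (d * ((K + 1) * (κ + 1) * ((K + 1) * (κ + 1) * (e1 + 4))) +
    e * ((K + 1) * (κ + 1) * ((K + 1) * (κ + 1) * (e2 + 1)))) with hB
  obtain ⟨k, b, hkb⟩ := hcne
  set k0 := Nat.findGreatest (fun k => ∃ b, c k b ≠ 0) K with hk0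
  have hk1 := (hcS k b hkb).1
  have h1 : ∃ b, c k0 b ≠ 0 := Nat.findGreatest_spec (P := fun k => ∃ b, c k b ≠ 0) hk1 ⟨b, hkb⟩
  have h2 : k0 ≤ K := Nat.findGreatest_le K
  have h3 : Supp N κ k0 c := by
    intro k' b' hne
    have h4 := hcS k' b' hne
    refine ⟨?_, h4.2⟩
    exact Nat.le_findGreatest h4.1 ⟨b', hne⟩
  have h5 : (PowerSeries.X : PowerSeries ℚ) ^ (B + 1) ∣ ∑ k ∈ Finset.range (K + 1),
      ∑ b ∈ Finset.range (κ + 1), aeval u (c k b) * zt ^ b * (F * wi ^ N) ^ k := by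
    rw [PowerSeries.X_pow_dvd_iff]
    intro m hm
    exact hcon m (by omega)
  obtain ⟨f, hf⟩ := h5
  obtain ⟨Q, g, hQ1, hQ2, hQ3⟩ := zero_ofA N K κ D G F hG hn hκ hF Φ hΦ hΦ' e1 e2 hBD c hcD k0 h2 h3
    h1 B f hf
  obtain ⟨n, hn1, hn2⟩ := hord Q _ _ hQ1.2 hQ1.1 hQ2
  apply hn2
  rw [hQ3, PowerSeries.coeff_X_pow_mul', if_neg]
  have h6 : d * ((K + 1) * (κ + 1) * (D + (K + 1) * (κ + 1) * (e1 + 4))) +
      e * ((K + 1) * (κ + 1) * ((K + 1) * (κ + 1) * (e2 + 1))) = B := by
    rw [hB]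
    ring
  omega

end H809.GEN
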