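import Pool.Agent.Run7.h635.GEN.Stm
import Pool.Agent.Run7.h809.OD.Zero3
import Pool.Agent.Run7.h709.OD.Ind
import Pool.Agent.Run7.h159.OD.Ric

/-!
# The field of the Laurent series which are algebraic over `ℚ(u)`
-/

set_option autoImplicit false
set_option linter.unusedSectionVars false

open Polynomial Differential
open scoped Differential

namespace H809.GEN

open H809.OD H809.OD.Abs H809.OD.Inst H635.GEN

theorem hInd : S_Ind := Run7.h709.OD.ind theta_holds Run7.h159.OD.ric

/-- the field of the Laurent series which are algebraic over `ℚ(u)` -/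
def Ka : Type := ↥(algebraicClosure Kf Lf)

noncomputable instance : Field Ka := inferInstanceAs (Field ↥(algebraicClosure Kf Lf))

noncomputable instance : Algebra Kf Ka := inferInstanceAs (Algebra Kf ↥(algebraicClosure Kf Lf))

instance : Algebra.IsAlgebraic Kf Ka :=
  inferInstanceAs (Algebra.IsAlgebraic Kf ↥(algebraicClosure Kf Lf))

instance : CharZero Ka := charZero_of_injective_ringHom (algebraMap Kf Ka).injective

/-- the inclusion -/
noncomputable def jK : Ka →+* Lf := (algebraicClosure Kf Lf).val.toRingHom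

noncomputable instance : Algebra Ka Lf := jK.toAlgebra

lemma jK_eq (x : Ka) : algebraMap Ka Lf x = jK x := rfl

lemma jK_inj : Function.Injective jK := jK.injective

instance : IsScalarTower Kf Ka Lf := IsScalarTower.of_algebraMap_eq fun _ => rfl

/-- an algebraic element of `Ka` -/
noncomputable def mkK (x : Lf) (hx : IsAlgebraic Kf x) : Ka := ⟨x, mem_algebraicClosure_iff.2 hx⟩

lemma jK_mkK (x : Lf) (hx : IsAlgebraic Kf x) : jK (mkK x hx) = x := rfl

lemma alg_jK (x : Ka) : IsAlgebraic Kf (jK x) := mem_algebraicClosure_iff.1 x.2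

lemma alg_deriv (x : Lf) (hx : IsAlgebraic Kf x) : IsAlgebraic Kf x′ := by
  have h1 : aeval x (minpoly Kf x) = 0 := minpoly.aeval _ _
  have h2 : aeval x (derivative (minpoly Kf x)) ≠ 0 :=
    (minpoly.irreducible hx.isIntegral).separable.aeval_derivative_ne_zero h1
  have h3 := Differential.deriv_aeval_eq x (minpoly Kf x)
  rw [h1, map_zero] at h3
  have h4 : x′ = -(aeval x (mapCoeffs (minpoly Kf x)) / aeval x (derivative (minpoly Kf x))) := by
    field_simp
    linear_combination -h3
  rw [h4]
  have h5 : ∀ P : Kf[X], IsAlgebraic Kf (aeval x P) := fun P => by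
    have h6 : aeval (algebraMap Ka Lf (mkK x hx)) P = algebraMap Ka Lf (aeval (mkK x hx) P) :=
      aeval_algebraMap_apply Lf (mkK x hx) P
    have h7 : algebraMap Ka Lf (mkK x hx) = x := rfl
    rw [h7] at h6
    rw [h6]
    exact alg_jK _
  exact ((h5 _).mul (h5 _).inv).neg

noncomputable instance : Differential Ka := ⟨Derivation.mk' (AddMonoidHom.toIntLinearMap
    { toFun := fun x => mkK (jK x)′ (alg_deriv _ (alg_jK x))
      map_zero' := by
        apply jK_inj
        rw [jK_mkK, map_zero, map_zero]
      map_add' := fun x y => by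
        apply jK_inj
        rw [jK_mkK, map_add, map_add, map_add, jK_mkK, jK_mkK] })
    (fun x y => by
      apply jK_inj
      change (jK (x * y))′ = _
      rw [map_mul, Derivation.leibniz]
      simp only [smul_eq_mul, map_add, map_mul]
      rfl)⟩

lemma jK_deriv (x : Ka) : jK x′ = (jK x)′ := rfl

instance : DifferentialAlgebra Ka Lf := ⟨fun _ => rfl⟩

instance : DifferentialAlgebra Kf Ka := ⟨fun a => by
  apply jK_inj
  rw [jK_deriv]
  exact iK_deriv theta_holds a⟩

/-- the system attached to the theta functions over `Ka` -/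
noncomputable def sysA : Sys Ka Lf where
  w := io w
  ζ := io zt
  η := algebraMap Kf Ka (al eta)
  w_ne := io_w0
  dw := (sys hInd).dw
  dζ := (sys hInd).dζ
  const := const_Lf theta_holds
  log := log_Lf theta_holds
  tr := by
    intro g hg
    by_contra h0
    have h1 : IsAlgebraic Ka (io zt) := ⟨g, h0, hg⟩
    have h2 : IsAlgebraic Kf (io zt) := h1.restrictScalars Kf
    obtain ⟨g', hg', hg1⟩ := h2
    exact hg' ((sys hInd).tr g' hg1)

/-- **Krylov**, with a scaled connection -/
theorem krylov_eps {K L : Type} [Field K] [Field L] [CharZero K] [CharZero L] [Differential K]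
    [Differential L] [Algebra K L] [DifferentialAlgebra K L] (S : Sys K L)
    (N κ Kmax : ℕ) (hκ : N * Kmax ≤ κ) (R : K) (F : L)
    (hF : F′ = algebraMap K L R * S.w ^ N)
    (hrat : ∀ (c : ℚ) (G : K[X]), c ≠ 0 → G.natDegree ≤ N → nab S N G ≠ C ((c : K) * R))
    (ε : K) (hε : ε ≠ 0)
    (v : ℕ → ℕ → K[X]) (hv : ∀ a, v (a + 1) = ε • nabs S N κ R (v a))
    (hdeg : ∀ a k, (v a k).natDegree ≤ κ - N * k) (k0 : ℕ) (hk0 : k0 ≤ Kmax) (hv0 : v 0 k0 ≠ 0)
    (hvz : ∀ a, ∀ k > k0, v a k = 0) (m : ℕ) (e : Fin m → ℕ × ℕ) (he : Function.Injective e)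
    (he1 : ∀ i, (e i).1 ≤ k0) (he2 : ∀ i, (e i).2 + N * (e i).1 ≤ κ) (l : ℕ → K)
    (hl : ∑ a ∈ Finset.range m, l a • v a = 0) : ∀ a < m, l a = 0 := by
  classical
  by_contra hcon
  push Not at hcon
  obtain ⟨i, hi, hli⟩ := hcon
  set r := Nat.findGreatest (fun i => l i ≠ 0) (m - 1) with hr
  have h1 : l r ≠ 0 := Nat.findGreatest_spec (P := fun i => l i ≠ 0) (by omega) hli
  have h2 : r < m := lt_of_le_of_lt (Nat.findGreatest_le (m - 1)) (by omega)
  have h3 : ∀ s, r < s → s < m → l s = 0 := by
    intro s hs1 hs2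
    by_contra h4
    exact Nat.findGreatest_is_greatest (P := fun i => l i ≠ 0) hs1 (by omega) h4
  clear_value r
  have h4 : ∑ a ∈ Finset.range (r + 1), l a • v a = 0 := by
    rw [← hl]
    refine Finset.sum_subset (fun x hx => ?_) fun x hx hx' => ?_
    · rw [Finset.mem_range] at hx ⊢; omega
    · rw [Finset.mem_range] at hx hx'
      rw [h3 x (by omega) (by omega), zero_smul]
  set U : Submodule K (ℕ → K[X]) := Submodule.span K (Set.range fun a : Fin r => v a) with hU
  have hmem : ∀ a < r, v a ∈ U := fun a ha => Submodule.subset_span ⟨⟨a, ha⟩, rfl⟩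
  have hr' : v r ∈ U := by
    rw [Finset.sum_range_succ] at h4
    have h5 : v r = (l r)⁻¹ • -∑ a ∈ Finset.range r, l a • v a := by
      rw [← add_eq_zero_iff_eq_neg'.1 h4, smul_smul, inv_mul_cancel₀ h1, one_smul]
    rw [h5]
    exact U.smul_mem _ (U.neg_mem (U.sum_mem fun a ha =>
      U.smul_mem _ (hmem a (Finset.mem_range.1 ha))))
  have hmem' : ∀ a ≤ r, v a ∈ U := by
    intro a ha
    rcases ha.lt_or_eq with h | h
    · exact hmem a h
    · rw [h]; exact hr'
  have hst : ∀ g ∈ U, nabs S N κ R g ∈ U := by
    intro g hg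
    refine Submodule.span_induction (p := fun g _ => nabs S N κ R g ∈ U) ?_ ?_ ?_ ?_ hg
    · rintro _ ⟨a, rfl⟩
      show nabs S N κ R (v a) ∈ U
      have h5 : nabs S N κ R (v a) = ε⁻¹ • v (a + 1) := by
        rw [hv, smul_smul, inv_mul_cancel₀ hε, one_smul]
      rw [h5]
      exact U.smul_mem _ (hmem' _ a.2)
    · rw [nabs_zero]; exact U.zero_mem
    · intro x y _ _ hx hy
      rw [nabs_add]
      exact U.add_mem hx hy
    · intro c x hxU hx
      rw [nabs_smul]
      exact U.add_mem (U.smul_mem _ hxU) (U.smul_mem _ hx)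
  have hdegU : ∀ g ∈ U, ∀ k, (g k).natDegree ≤ κ - N * k := by
    intro g hg k
    refine Submodule.span_induction (p := fun g _ => (g k).natDegree ≤ κ - N * k) ?_ ?_ ?_ ?_ hg
    · rintro _ ⟨a, rfl⟩
      exact hdeg a k
    · simp
    · intro x y _ _ hx hy
      rw [Pi.add_apply]
      exact (natDegree_add_le _ _).trans (max_le hx hy)
    · intro c x _ hx
      rw [Pi.smul_apply]
      exact (natDegree_smul_le _ _).trans hx
  have hfr := fr S N κ Kmax hκ R F hF hrat U hst hdegU k0 hk0 ⟨v 0, hmem' 0 (Nat.zero_le r), hv0,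
    hvz 0⟩
  -- the basis vectors
  let ψ : (Fin m → K) →ₗ[K] (ℕ → K[X]) :=
    { toFun := fun c k => ∑ i : Fin m, if (e i).1 = k then monomial (e i).2 (c i) else 0
      map_add' := fun a b => by
        funext k
        rw [Pi.add_apply, ← Finset.sum_add_distrib]
        refine Finset.sum_congr rfl fun i _ => ?_
        split_ifs <;> simp
      map_smul' := fun a b => by
        funext k
        rw [Pi.smul_apply, Finset.smul_sum]
        refine Finset.sum_congr rfl fun i _ => ?_
        split_ifs <;> simp [smul_monomial] }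
  have hψU : ∀ c, ψ c ∈ U := by
    intro c
    refine hfr _ (fun k => ?_) (fun k hk => ?_)
    · show (∑ i : Fin m, if (e i).1 = k then monomial (e i).2 (c i) else 0 : K[X]).natDegree ≤ _
      refine natDegree_sum_le_of_forall_le _ _ fun i _ => ?_
      split_ifs with h
      · refine (natDegree_monomial_le _).trans ?_
        have := he2 i
        rw [h] at this
        omega
      · simp
    · show (∑ i : Fin m, if (e i).1 = k then monomial (e i).2 (c i) else 0 : K[X]) = 0
      refine Finset.sum_eq_zero fun i _ => ?_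
      rw [if_neg]
      have := he1 i
      omega
  have hinj : Function.Injective ψ := by
    rw [← LinearMap.ker_eq_bot, LinearMap.ker_eq_bot']
    intro c hc
    funext j
    have h5 := congrArg (fun g : ℕ → K[X] => (g (e j).1).coeff (e j).2) hc
    simp only [ψ, LinearMap.coe_mk, AddHom.coe_mk, finsetSum_coeff, Pi.zero_apply,
      coeff_zero] at h5
    rw [Finset.sum_eq_single j] at h5
    · simpa using h5
    · intro b _ hb
      split_ifs with h6
      · rw [coeff_monomial, if_neg]
        intro h7
        exact hb (he (Prod.ext h6 h7))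
      · simp
    · intro h6; exact absurd (Finset.mem_univ j) h6
  have hfin : FiniteDimensional K U := FiniteDimensional.span_of_finite K (Set.finite_range _)
  have h6 : m ≤ Module.finrank K U := by
    have := LinearMap.finrank_le_finrank_of_injective (f := ψ.codRestrict U hψU) (by
      intro a b hab
      exact hinj (congrArg Subtype.val hab))
    simpa using this
  have h7 : Module.finrank K U ≤ r := by
    have := finrank_range_le_card (R := K) (fun a : Fin r => v a)
    simpa [Set.finrank] using this
  omega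

end H809.GEN
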