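import Pool.Agent.Run7.h809.GEN.GZ1

/-!
# Evaluation of polynomials in `u` and `G`, the scaled connection, bidegrees
-/

set_option autoImplicit false
set_option linter.unusedSectionVars false

open Polynomial Differential
open scoped Differential

namespace H809.GEN

open H809.OD H809.OD.Abs H809.OD.Inst H635.GEN

/-! ### evaluation -/

lemma aeval_map_al (G : PowerSeries ℚ) (P : ℚ[X][X]) : aeval (io G) (P.map al) = io (ev2 G P) := by
  have h1 : (algebraMap Kf Lf).comp al =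
      io.comp (Polynomial.aeval u : Polynomial ℚ →ₐ[ℚ] PowerSeries ℚ).toRingHom :=
    RingHom.ext fun P => am_al P
  unfold ev2
  rw [coe_eval₂RingHom, hom_eval₂, ← h1, aeval_def, eval₂_map]

lemma map_al_ne (P : ℚ[X][X]) (hP : P ≠ 0) : P.map al ≠ 0 := by
  rwa [Ne, Polynomial.map_eq_zero_iff al_inj]

lemma alg_io (G : PowerSeries ℚ) (hG : AlgU G) : IsAlgebraic Kf (io G) := by
  obtain ⟨Φ, hΦ, h0⟩ := hG
  exact ⟨Φ.map al, map_al_ne Φ hΦ, by rw [aeval_map_al, h0, map_zero]⟩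

section

variable (G : PowerSeries ℚ) (hG : AlgU G)

/-- `G` as an element of `Ka` -/
noncomputable def gA : Ka := mkK (io G) (alg_io G hG)

/-- evaluation at `(u, G)` with values in `Ka` -/
noncomputable def ea : ℚ[X][X] →+* Ka := eval₂RingHom ((algebraMap Kf Ka).comp al) (gA G hG)

lemma ea_eq (P : ℚ[X][X]) : ea G hG P = aeval (gA G hG) (P.map al) := by
  unfold ea
  rw [coe_eval₂RingHom, aeval_def, eval₂_map]

lemma jK_ea (P : ℚ[X][X]) : jK (ea G hG P) = io (ev2 G P) := by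
  rw [ea_eq, ← aeval_map_al, ← jK_eq, ← aeval_algebraMap_apply]
  rfl

lemma ea_X : ea G hG X = gA G hG := by
  unfold ea
  rw [coe_eval₂RingHom, eval₂_X]

lemma ea_C (P : ℚ[X]) : ea G hG (C P) = algebraMap Kf Ka (al P) := by
  unfold ea
  rw [coe_eval₂RingHom, eval₂_C]
  rfl

/-- derivation of the coefficients -/
noncomputable def dX : Derivation ℤ ℚ[X][X] ℚ[X][X] :=
  PolynomialModule.equivPolynomialSelf.compDer dP.mapCoeffs

lemma coeff_dX (P : ℚ[X][X]) (i : ℕ) : (dX P).coeff i = pp * derivative (P.coeff i) := rfl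

lemma ea_deriv (P : ℚ[X][X]) :
    (ea G hG P)′ = ea G hG (dX P) + ea G hG (derivative P) * (gA G hG)′ := by
  rw [ea_eq, ea_eq, ea_eq, Differential.deriv_aeval_eq, derivative_map]
  congr 2
  ext i
  rw [Differential.coeff_mapCoeffs, coeff_map, coeff_map, coeff_dX, deriv_al]

end

/-! ### bidegrees -/

/-- bidegree at most `(s, t)` -/
def BD (s t : ℕ) (P : ℚ[X][X]) : Prop := P.natDegree ≤ t ∧ ∀ i, (P.coeff i).natDegree ≤ s

lemma BD.mono {s t s' t' : ℕ} {P : ℚ[X][X]} (h : BD s t P) (hs : s ≤ s') (ht : t ≤ t') :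
    BD s' t' P := ⟨h.1.trans ht, fun i => (h.2 i).trans hs⟩

lemma BD.zero {s t : ℕ} : BD s t 0 := ⟨by simp, fun i => by simp⟩

lemma BD.add {s t : ℕ} {P Q : ℚ[X][X]} (hP : BD s t P) (hQ : BD s t Q) : BD s t (P + Q) :=
  ⟨(natDegree_add_le _ _).trans (max_le hP.1 hQ.1), fun i => by
    rw [coeff_add]
    exact (natDegree_add_le _ _).trans (max_le (hP.2 i) (hQ.2 i))⟩

lemma BD.neg {s t : ℕ} {P : ℚ[X][X]} (hP : BD s t P) : BD s t (-P) :=
  ⟨by rw [natDegree_neg]; exact hP.1, fun i => by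
    rw [coeff_neg, natDegree_neg]
    exact hP.2 i⟩

lemma BD.sub {s t : ℕ} {P Q : ℚ[X][X]} (hP : BD s t P) (hQ : BD s t Q) : BD s t (P - Q) := by
  rw [sub_eq_add_neg]
  exact hP.add hQ.neg

lemma BD.mul {s t s' t' : ℕ} {P Q : ℚ[X][X]} (hP : BD s t P) (hQ : BD s' t' Q) :
    BD (s + s') (t + t') (P * Q) :=
  ⟨natDegree_mul_le.trans (add_le_add hP.1 hQ.1), fun i => by
    rw [coeff_mul]
    refine natDegree_sum_le_of_forall_le _ _ fun x _ => ?_
    exact natDegree_mul_le.trans (add_le_add (hP.2 _) (hQ.2 _))⟩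

lemma BD.C {s : ℕ} {P : ℚ[X]} (hP : P.natDegree ≤ s) : BD s 0 (C P) :=
  ⟨by rw [natDegree_C], fun i => by
    rw [coeff_C]
    split_ifs
    · exact hP
    · simp⟩

lemma BD.X : BD 0 1 (X : ℚ[X][X]) :=
  ⟨natDegree_X_le, fun i => by
    rw [coeff_X]
    split_ifs <;> simp⟩

lemma BD.nat (n : ℕ) : BD 0 0 (n : ℚ[X][X]) := by
  rw [← map_natCast (Polynomial.C : ℚ[X] →+* ℚ[X][X]) n]
  exact BD.C (by rw [natDegree_natCast])

lemma BD.sum {s t : ℕ} {ι : Type*} (S : Finset ι) (f : ι → ℚ[X][X]) (h : ∀ i ∈ S, BD s t (f i)) :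
    BD s t (∑ i ∈ S, f i) := by
  classical
  induction S using Finset.induction_on with
  | empty => simpa using BD.zero
  | insert i S hi ih =>
    rw [Finset.sum_insert hi]
    exact (h i (Finset.mem_insert_self i S)).add
      (ih fun j hj => h j (Finset.mem_insert_of_mem hj))

lemma BD.prod {s t : ℕ} {ι : Type*} (S : Finset ι) (f : ι → ℚ[X][X]) (h : ∀ i ∈ S, BD s t (f i)) :
    BD (S.card * s) (S.card * t) (∏ i ∈ S, f i) := by
  classical
  induction S using Finset.induction_on with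
  | empty =>
    rw [Finset.prod_empty, Finset.card_empty]
    have := BD.nat 1
    simpa using this
  | insert i S hi ih =>
    rw [Finset.prod_insert hi, Finset.card_insert_of_notMem hi]
    refine ((h i (Finset.mem_insert_self i S)).mul
      (ih fun j hj => h j (Finset.mem_insert_of_mem hj))).mono (le_of_eq ?_) (le_of_eq ?_) <;> ring

lemma BD.det {m s t : ℕ} (M : Matrix (Fin m) (Fin m) ℚ[X][X]) (h : ∀ a i, BD s t (M a i)) :
    BD (m * s) (m * t) M.det := by
  rw [Matrix.det_apply]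
  refine BD.sum _ _ fun σ _ => ?_
  have h1 : BD (m * s) (m * t) (∏ i, M (σ i) i) := by
    have := BD.prod Finset.univ (fun i => M (σ i) i) (fun i _ => h (σ i) i)
    rwa [Finset.card_univ, Fintype.card_fin] at this
  rcases Int.units_eq_one_or (Equiv.Perm.sign σ) with h2 | h2
  · rw [h2, one_smul]; exact h1
  · rw [h2]
    have : (-1 : ℤˣ) • (∏ i, M (σ i) i) = -(∏ i, M (σ i) i) := by
      rw [Units.neg_smul, one_smul]
    rw [this]
    exact h1.neg

lemma pp_deg : pp.natDegree ≤ 3 := by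
  unfold pp
  compute_degree

lemma eta_deg : OD.eta.natDegree ≤ 4 := by
  unfold OD.eta
  compute_degree

lemma BD.dX {s t : ℕ} {P : ℚ[X][X]} (hP : BD s t P) : BD (s + 3) t (dX P) := by
  refine ⟨?_, fun i => ?_⟩
  · rw [natDegree_le_iff_coeff_eq_zero]
    intro i hi
    rw [coeff_dX, coeff_eq_zero_of_natDegree_lt (lt_of_le_of_lt hP.1 hi)]
    simp
  · rw [coeff_dX]
    refine natDegree_mul_le.trans ?_
    have h1 := natDegree_derivative_le (P.coeff i)
    have h2 := hP.2 i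
    have h3 := pp_deg
    omega

lemma BD.deriv {s t : ℕ} {P : ℚ[X][X]} (hP : BD s t P) : BD s t (derivative P) := by
  refine ⟨(natDegree_derivative_le P).trans ((Nat.sub_le _ _).trans hP.1), fun i => ?_⟩
  rw [coeff_derivative]
  refine natDegree_mul_le.trans ?_
  have h1 := hP.2 (i + 1)
  have h2 : ((i : ℚ[X]) + 1).natDegree = 0 := by
    have : (i : ℚ[X]) + 1 = ((i + 1 : ℕ) : ℚ[X]) := by push_cast; ring
    rw [this, natDegree_natCast]
  omega

/-! ### the scaled connection on arrays -/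

/-- the connection on arrays of polynomials in `u` and `G` -/
noncomputable def stE (N κ : ℕ) (Φ : ℚ[X][X]) (P : ℕ → ℕ → ℚ[X][X]) : ℕ → ℕ → ℚ[X][X] :=
  fun k b => derivative Φ * dX (P k b) - derivative (P k b) * dX Φ +
    derivative Φ * ((if b = 0 then 0 else ((κ + 1 - N * k - b : ℕ) : ℚ[X][X]) * P k (b - 1)) +
      ((b + 1 : ℕ) : ℚ[X][X]) * (C OD.eta * P k (b + 1)) +
      ((k + 1 : ℕ) : ℚ[X][X]) * (X * P (k + 1) b))

lemma BD.stE {N κ s t e1 e2 : ℕ} {Φ : ℚ[X][X]} (hΦ : BD e1 e2 Φ) {P : ℕ → ℕ → ℚ[X][X]}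
    (hP : ∀ k b, BD s t (P k b)) (k b : ℕ) :
    BD (s + (e1 + 4)) (t + (e2 + 1)) (stE N κ Φ P k b) := by
  unfold GEN.stE
  have h0 := hΦ.deriv
  have h1 : BD (s + (e1 + 4)) (t + (e2 + 1)) (derivative Φ * GEN.dX (P k b)) :=
    (h0.mul (hP k b).dX).mono (by omega) (by omega)
  have h2 : BD (s + (e1 + 4)) (t + (e2 + 1)) (derivative (P k b) * GEN.dX Φ) :=
    ((hP k b).deriv.mul hΦ.dX).mono (by omega) (by omega)
  refine (h1.sub h2).add ?_
  have h3 : BD (s + 4) (t + 1)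
      (if b = 0 then 0 else ((κ + 1 - N * k - b : ℕ) : ℚ[X][X]) * P k (b - 1)) := by
    split_ifs
    · exact BD.zero
    · exact ((BD.nat _).mul (hP k (b - 1))).mono (by omega) (by omega)
  have h4 : BD (s + 4) (t + 1) (((b + 1 : ℕ) : ℚ[X][X]) * (Polynomial.C OD.eta * P k (b + 1))) :=
    ((BD.nat _).mul ((BD.C eta_deg).mul (hP k (b + 1)))).mono (by omega) (by omega)
  have h5 : BD (s + 4) (t + 1) (((k + 1 : ℕ) : ℚ[X][X]) * (Polynomial.X * P (k + 1) b)) :=
    ((BD.nat _).mul (BD.X.mul (hP (k + 1) b))).mono (by omega) (by omega)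
  exact (h0.mul ((h3.add h4).add h5)).mono (by omega) (by omega)

/-- support condition -/
def SuppA (N κ k0 : ℕ) (P : ℕ → ℕ → ℚ[X][X]) : Prop := ∀ k b, P k b ≠ 0 → k ≤ k0 ∧ b + N * k ≤ κ

lemma SuppA.zero {N κ k0 : ℕ} {P : ℕ → ℕ → ℚ[X][X]} (hP : SuppA N κ k0 P) {k b : ℕ}
    (h : k0 < k ∨ κ < b + N * k) : P k b = 0 := by
  by_contra hne
  have := hP k b hne
  omega

lemma supp_stE {N κ k0 : ℕ} {Φ : ℚ[X][X]} {P : ℕ → ℕ → ℚ[X][X]} (hP : SuppA N κ k0 P) :
    SuppA N κ k0 (stE N κ Φ P) := by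
  intro k b hne
  by_contra hcon
  apply hne
  have hcon' : k0 < k ∨ κ < b + N * k := by omega
  have e1 : P k b = 0 := hP.zero hcon'
  have e2 : P k (b + 1) = 0 := hP.zero (by omega)
  have e3 : P (k + 1) b = 0 := hP.zero (by
    have : N * (k + 1) = N * k + N := by ring
    omega)
  have e4 : (if b = 0 then 0 else ((κ + 1 - N * k - b : ℕ) : ℚ[X][X]) * P k (b - 1)) = 0 := by
    split_ifs with hb
    · rfl
    · rcases hcon' with h | h
      · rw [hP.zero (Or.inl h), mul_zero]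
      · have : κ + 1 - N * k - b = 0 := by omega
        rw [this]; simp
  unfold stE
  rw [e1, e2, e3, e4]
  simp

/-- the vector attached to an array -/
noncomputable def vecA (G : PowerSeries ℚ) (hG : AlgU G) (κ : ℕ) (P : ℕ → ℕ → ℚ[X][X]) :
    ℕ → Ka[X] := fun k => ∑ b ∈ Finset.range (κ + 1), C (ea G hG (P k b)) * X ^ b

lemma coeff_vecA (G : PowerSeries ℚ) (hG : AlgU G) {N κ k0 : ℕ} {P : ℕ → ℕ → ℚ[X][X]}
    (hP : SuppA N κ k0 P) (k b : ℕ) : (vecA G hG κ P k).coeff b = ea G hG (P k b) := by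
  unfold vecA
  rw [finsetSum_coeff]
  simp only [coeff_C_mul, coeff_X_pow]
  by_cases hb : b < κ + 1
  · rw [Finset.sum_eq_single b]
    · simp
    · intro c _ hc
      rw [if_neg (Ne.symm hc), mul_zero]
    · intro h; exact absurd (Finset.mem_range.2 hb) h
  · rw [hP.zero (Or.inr (by omega)), map_zero]
    refine Finset.sum_eq_zero fun c hc => ?_
    rw [if_neg (by have := Finset.mem_range.1 hc; omega), mul_zero]

lemma eps_deriv (G : PowerSeries ℚ) (hG : AlgU G) (Φ : ℚ[X][X]) (hΦ : ev2 G Φ = 0) (P : ℚ[X][X]) :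
    ea G hG (derivative Φ) * (ea G hG P)′ =
      ea G hG (derivative Φ * dX P - derivative P * dX Φ) := by
  have h0 : ea G hG Φ = 0 := by
    apply jK_inj
    rw [jK_ea, hΦ, map_zero, map_zero]
  have h1 := ea_deriv G hG Φ
  rw [h0, map_zero] at h1
  rw [ea_deriv, map_sub, map_mul, map_mul]
  linear_combination ea G hG (derivative P) * (-h1)

lemma vec_stE (G : PowerSeries ℚ) (hG : AlgU G) (Φ : ℚ[X][X]) (hΦ : ev2 G Φ = 0) {N κ k0 : ℕ}
    {P : ℕ → ℕ → ℚ[X][X]} (hP : SuppA N κ k0 P) :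
    vecA G hG κ (stE N κ Φ P) =
      ea G hG (derivative Φ) • nabs sysA N κ (gA G hG) (vecA G hG κ P) := by
  funext k
  ext b
  rw [coeff_vecA G hG (supp_stE hP), Pi.smul_apply, coeff_smul, smul_eq_mul]
  unfold nabs
  rw [coeff_add]
  have h1 : (((k + 1 : ℕ) : Ka[X]) * C (gA G hG) * vecA G hG κ P (k + 1)).coeff b =
      ((k + 1 : ℕ) : Ka) * gA G hG * ea G hG (P (k + 1) b) := by
    have : ((k + 1 : ℕ) : Ka[X]) * C (gA G hG) = C (((k + 1 : ℕ) : Ka) * gA G hG) := by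
      rw [C_mul, map_natCast]
    rw [this, coeff_C_mul, coeff_vecA G hG hP]
  rw [h1]
  have h3 : (sysA).η = ea G hG (C OD.eta) := by rw [ea_C]; rfl
  have h2 := eps_deriv G hG Φ hΦ (P k b)
  rcases b with _ | b
  · rw [coeff_nab_zero, coeff_vecA G hG hP, coeff_vecA G hG hP, h3]
    unfold stE
    rw [if_pos rfl, map_add, ← h2]
    simp only [map_mul, map_add, map_natCast, ea_X, zero_add, Nat.cast_one, one_mul]
    ring
  · rw [coeff_nab_succ, coeff_vecA G hG hP, coeff_vecA G hG hP, coeff_vecA G hG hP, h3]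
    unfold stE
    rw [if_neg (Nat.succ_ne_zero b), Nat.add_sub_cancel, map_add, ← h2]
    simp only [map_mul, map_add, map_natCast, ea_X]
    have h4 : ((κ + 1 - N * k - (b + 1) : ℕ) : Ka) * ea G hG (P k b) =
        (((κ - N * k : ℕ) : Ka) - b) * ea G hG (P k b) := by
      by_cases h0 : P k b = 0
      · rw [h0]; simp
      · have := hP k b h0
        have h5 : κ + 1 - N * k - (b + 1) = κ - N * k - b := by omega
        rw [h5, Nat.cast_sub (by omega)]
    rw [h4]
    push_cast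
    ring

end H809.GEN
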